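import Pool.Agent.helper22.RG9.Spec2

set_option autoImplicit false

namespace Pool.Agent.RG9

open Matrix Pool.Agent.H48SL Pool.Agent.UG

theorem IMG_one {D : Type} [Group D] {n k : ℕ} {F : D → SLZ n} (h : PR k F) : F 1 = 1 := by
  have h1 := h.mul 1 1 rfl
  rw [mul_one] at h1
  have h2 : F 1 * 1 = F 1 * F 1 := by rw [mul_one, ← h1]
  exact (mul_left_cancel h2).symm

theorem IMG_inv {D : Type} [Group D] {n k : ℕ} {F : D → SLZ n} (h : PR k F) (x : D) :
    F x⁻¹ = (F x)⁻¹ := by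
  have h1 := h.mul x x⁻¹ (by rw [mul_inv_cancel, inv_mul_cancel])
  rw [mul_inv_cancel, IMG_one h] at h1
  exact eq_inv_of_mul_eq_one_right h1.symm

theorem IMG_pow {D : Type} [Group D] {n k : ℕ} {F : D → SLZ n} (h : PR k F) (x : D) (t : ℕ) :
    F (x ^ t) = F x ^ t := by
  induction t with
  | zero => rw [pow_zero, pow_zero, IMG_one h]
  | succ t ih =>
    have h1 : x ^ t * x = x * x ^ t := (Commute.pow_self x t).eq
    rw [pow_succ, pow_succ, h.mul _ _ h1, ih]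

theorem IMG_conj {D : Type} [Group D] (d x y : D) :
    d * (x * y) * d⁻¹ = (d * x * d⁻¹) * (d * y * d⁻¹) := by
  simp only [mul_assoc, inv_mul_cancel_left]

theorem IMG_conji {D : Type} [Group D] (d x : D) :
    d * x⁻¹ * d⁻¹ = (d * x * d⁻¹)⁻¹ := by
  simp only [_root_.mul_inv_rev, inv_inv, mul_assoc]

theorem IMG : IMG_stmt := by
  intro D _ n k F h
  refine ⟨⟨IMG_one h, IMG_inv h, IMG_pow h⟩, ?_, ?_⟩
  · intro X hX g hg
    unfold im at hg
    induction hg using Subgroup.closure_induction with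
    | mem g hg =>
      obtain ⟨x, hx, rfl⟩ := hg
      exact ⟨x, hx, rfl⟩
    | one => exact ⟨1, X.one_mem, (IMG_one h).symm⟩
    | mul a b _ _ ha hb =>
      obtain ⟨x, hx, rfl⟩ := ha
      obtain ⟨y, hy, rfl⟩ := hb
      exact ⟨x * y, X.mul_mem hx hy, (h.mul x y (hX x hx y hy)).symm⟩
    | inv a _ ha =>
      obtain ⟨x, hx, rfl⟩ := ha
      exact ⟨x⁻¹, X.inv_mem hx, (IMG_inv h x).symm⟩
  · intro d
    refine ⟨?_, ?_⟩
    · intro x y hxy
      show F (d * (x * y) * d⁻¹) = F (d * x * d⁻¹) * F (d * y * d⁻¹)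
      rw [IMG_conj]
      refine h.mul _ _ ?_
      rw [← IMG_conj, ← IMG_conj, hxy]
    · intro x y c hc h1 h2
      show F (d * x * d⁻¹) * F (d * y * d⁻¹) * (F (d * x * d⁻¹))⁻¹ * (F (d * y * d⁻¹))⁻¹ =
        F (d * c * d⁻¹) ^ k
      refine h.com _ _ _ ?_ ?_ ?_
      · rw [hc, IMG_conj, IMG_conj, IMG_conj, IMG_conji, IMG_conji]
      · rw [← IMG_conj, ← IMG_conj, h1]
      · rw [← IMG_conj, ← IMG_conj, h2]

end Pool.Agent.RG9
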